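import Pool.Agent.helper83.LS.Spec

set_option autoImplicit false

/-! Module `ZP` of project ls (MP_60c1a7_co). -/

namespace LSH

theorem ZP_root {V : Type} (t : LT V) : t.root ∈ t.verts := by
  cases t <;> simp [LT.root, LT.verts]

theorem ZP_edg {V : Type} (t : LT V) : ∀ e ∈ t.edg, e.1 ∈ t.verts ∧ e.2 ∈ t.verts := by
  induction t with
  | leaf v => intro e he; simp [LT.edg] at he
  | un v t ih =>
    intro e he
    simp only [LT.edg, List.mem_cons] at he
    simp only [LT.verts, List.mem_cons]
    rcases he with rfl | he
    · exact ⟨Or.inl rfl, Or.inr (ZP_root t)⟩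
    · exact ⟨Or.inr (ih e he).1, Or.inr (ih e he).2⟩
  | br v s t ih1 ih2 =>
    intro e he
    simp only [LT.edg, List.mem_append, List.mem_cons] at he
    simp only [LT.verts, List.mem_cons, List.mem_append]
    rcases he with (rfl | he) | (rfl | he)
    · exact ⟨Or.inl rfl, Or.inr (Or.inl (ZP_root s))⟩
    · exact ⟨Or.inr (Or.inl (ih1 e he).1), Or.inr (Or.inl (ih1 e he).2)⟩
    · exact ⟨Or.inl rfl, Or.inr (Or.inr (ZP_root t))⟩
    · exact ⟨Or.inr (Or.inr (ih2 e he).1), Or.inr (Or.inr (ih2 e he).2)⟩

theorem ZP_ne {V : Type} (t : LT V) (h : t.verts.Nodup) : ∀ e ∈ t.edg, e.2 ≠ t.root := by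
  cases t with
  | leaf v => intro e he; simp [LT.edg] at he
  | un v t =>
    intro e he
    simp only [LT.verts, List.nodup_cons] at h
    simp only [LT.edg, List.mem_cons] at he
    simp only [LT.root]
    rcases he with rfl | he
    · exact fun h2 => h.1 (h2 ▸ ZP_root t)
    · exact fun h2 => h.1 (h2 ▸ (ZP_edg t e he).2)
  | br v s t =>
    intro e he
    simp only [LT.verts, List.nodup_cons, List.mem_append, not_or] at h
    simp only [LT.edg, List.mem_append, List.mem_cons] at he
    simp only [LT.root]
    rcases he with (rfl | he) | (rfl | he)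
    · exact fun h2 => h.1.1 (h2 ▸ ZP_root s)
    · exact fun h2 => h.1.1 (h2 ▸ (ZP_edg s e he).2)
    · exact fun h2 => h.1.2 (h2 ▸ ZP_root t)
    · exact fun h2 => h.1.2 (h2 ▸ (ZP_edg t e he).2)

theorem ZP : ZP_stmt := by
  classical
  intro V t
  induction t with
  | leaf v =>
    intro d _ hs
    cases d with
    | leaf x => exact ⟨fun _ => x, fun _ => true, by simp [LT.verts, PT.pts], rfl, rfl⟩
    | un x h t => simp [PT.shape, LT.shape] at hs
    | br x h s k t => simp [PT.shape, LT.shape] at hs
  | un v t ih =>
    intro d hn hs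
    cases d with
    | leaf x => simp [PT.shape, LT.shape] at hs
    | un x h d =>
      simp only [PT.shape, LT.shape, BT.un.injEq] at hs
      simp only [LT.verts, List.nodup_cons] at hn
      obtain ⟨f, b, h1, h2, h3⟩ := ih d hn.2 hs
      have hv : ∀ w ∈ t.verts, w ≠ v := fun w hw h => hn.1 (h ▸ hw)
      refine ⟨fun w => if w = v then x else f w, fun w => if w = t.root then h else b w,
        ?_, ?_, ?_⟩
      · simp only [LT.verts, List.map_cons, if_pos, PT.pts, ← Multiset.cons_coe]
        rw [← h1]
        congr 2
        refine List.map_congr_left fun w hw => ?_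
        rw [if_neg (hv w hw)]
      · simp [LT.root, PT.root]
      · simp only [PT.edges, LT.edg, List.map_cons, if_pos]
        rw [if_neg (hv _ (ZP_root t)), h2, h3]
        congr 1
        refine List.map_congr_left fun e he => ?_
        rw [if_neg (hv _ (ZP_edg t e he).1), if_neg (hv _ (ZP_edg t e he).2),
          if_neg (ZP_ne t hn.2 e he)]
    | br x h s k t => simp [PT.shape, LT.shape] at hs
  | br v s t ih1 ih2 =>
    intro d hn hs
    cases d with
    | leaf x => simp [PT.shape, LT.shape] at hs
    | un x h t => simp [PT.shape, LT.shape] at hs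
    | br x h d k d' =>
      simp only [PT.shape, LT.shape, BT.br.injEq] at hs
      simp only [LT.verts, List.nodup_cons, List.mem_append, not_or, List.nodup_append] at hn
      obtain ⟨⟨hvs, hvt⟩, hns, hnt, hd⟩ := hn
      obtain ⟨f, b, h1, h2, h3⟩ := ih1 d hns hs.1
      obtain ⟨f', b', h1', h2', h3'⟩ := ih2 d' hnt hs.2
      have hv : ∀ w ∈ s.verts, w ≠ v := fun w hw h => hvs (h ▸ hw)
      have hv' : ∀ w ∈ t.verts, w ≠ v := fun w hw h => hvt (h ▸ hw)
      have hst : ∀ w ∈ t.verts, w ∉ s.verts := fun w hw hw' => hd w hw' w hw rfl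
      refine ⟨fun w => if w = v then x else if w ∈ s.verts then f w else f' w,
        fun w => if w = s.root then h else if w = t.root then k else
          if w ∈ s.verts then b w else b' w, ?_, ?_, ?_⟩
      · simp only [LT.verts, List.map_cons, if_pos, PT.pts, ← Multiset.cons_coe,
          List.map_append, ← Multiset.coe_add]
        rw [← h1, ← h1']
        congr 3
        · refine List.map_congr_left fun w hw => ?_
          rw [if_neg (hv w hw), if_pos hw]
        · refine List.map_congr_left fun w hw => ?_
          rw [if_neg (hv' w hw), if_neg (hst w hw)]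
      · simp [LT.root, PT.root]
      · have hr : t.root ≠ s.root := fun h => hst _ (ZP_root t) (h ▸ ZP_root s)
        simp only [PT.edges, LT.edg, List.map_cons, List.map_append, if_pos]
        rw [if_neg (hv _ (ZP_root s)), if_pos (ZP_root s), h2, h3,
          if_neg (hv' _ (ZP_root t)), if_neg (hst _ (ZP_root t)), h2', h3', if_neg hr]
        congr 2
        · refine List.map_congr_left fun e he => ?_
          have e1 := ZP_edg s e he
          rw [if_neg (hv _ e1.1), if_neg (hv _ e1.2), if_pos e1.1, if_pos e1.2,
            if_neg (ZP_ne s hns e he), if_neg (show ¬ e.2 = t.root from fun h => hst _ (ZP_root t) (h ▸ e1.2)),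
            if_pos e1.2]
        · refine List.map_congr_left fun e he => ?_
          have e1 := ZP_edg t e he
          rw [if_neg (hv' _ e1.1), if_neg (hv' _ e1.2), if_neg (hst _ e1.1),
            if_neg (hst _ e1.2), if_neg (show ¬ e.2 = s.root from fun h => hst _ e1.2 (h ▸ ZP_root s)),
            if_neg (ZP_ne t hnt e he), if_neg (hst _ e1.2)]

end LSH
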